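import Pool.Agent.W966.Vg.Stms

set_option autoImplicit false
set_option linter.all false

/-! Project VG (helper966): from nonscalar to total complexity. -/

namespace Pool.Agent.W337.VG

open MvPolynomial Pool.Agent.W966.Vg

variable {K ι : Type} [Field K]

/-- available before step `s` -/
def Av (g : ℕ → MvPolynomial ι K) (s : ℕ) (p : MvPolynomial ι K) : Prop :=
  (∃ c, p = C c) ∨ (∃ i, p = X i) ∨ ∃ s' < s, p = g s'

/-- constants and variables -/
def Bs (p : MvPolynomial ι K) : Prop := (∃ c, p = C c) ∨ ∃ i, p = X i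

theorem Av.of_bs {g : ℕ → MvPolynomial ι K} {s : ℕ} {p : MvPolynomial ι K} (h : Bs p) :
    Av g s p := by
  rcases h with h | h
  · exact Or.inl h
  · exact Or.inr (Or.inl h)

theorem Av.mono {g : ℕ → MvPolynomial ι K} {s s' : ℕ} {p : MvPolynomial ι K} (h : Av g s p)
    (hs : s ≤ s') : Av g s' p := by
  rcases h with h | h | ⟨t, ht, h⟩
  · exact Or.inl h
  · exact Or.inr (Or.inl h)
  · exact Or.inr (Or.inr ⟨t, by omega, h⟩)

theorem Av.update {g : ℕ → MvPolynomial ι K} {s r : ℕ} {p : MvPolynomial ι K} (h : Av g s p)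
    (hs : s ≤ r) (w : MvPolynomial ι K) : Av (Function.update g r w) s p := by
  rcases h with h | h | ⟨t, ht, h⟩
  · exact Or.inl h
  · exact Or.inr (Or.inl h)
  · refine Or.inr (Or.inr ⟨t, ht, ?_⟩)
    rw [Function.update_of_ne (by omega)]
    exact h

/-- valid sequences -/
def Va (r : ℕ) (g : ℕ → MvPolynomial ι K) : Prop :=
  ∀ s < r, ∃ p q : MvPolynomial ι K, Av g s p ∧ Av g s q ∧
    (g s = p + q ∨ g s = p - q ∨ g s = p * q)

/-- the polynomials of `S` can be computed in `r` steps -/
def Re (r : ℕ) (S : Set (MvPolynomial ι K)) : Prop :=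
  ∃ g : ℕ → MvPolynomial ι K, Va r g ∧ ∀ p ∈ S, Av g r p

theorem Re.sub {r : ℕ} {S S' : Set (MvPolynomial ι K)} (h : Re r S) (hS : S' ⊆ S) : Re r S' := by
  obtain ⟨g, h1, h2⟩ := h
  exact ⟨g, h1, fun p hp => h2 p (hS hp)⟩

theorem Re.step {r : ℕ} {S : Set (MvPolynomial ι K)} (h : Re r S) {p q w : MvPolynomial ι K}
    (hp : p ∈ S ∨ Bs p) (hq : q ∈ S ∨ Bs q) (hw : w = p + q ∨ w = p - q ∨ w = p * q) :
    Re (r + 1) (insert w S) := by
  obtain ⟨g, h1, h2⟩ := h
  have h2' : ∀ p, p ∈ S ∨ Bs p → Av g r p := fun p hp => hp.elim (h2 p) Av.of_bs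
  refine ⟨Function.update g r w, ?_, ?_⟩
  · intro s hs
    rcases Nat.lt_succ_iff_lt_or_eq.1 hs with hs | hs
    · obtain ⟨a, b, ha, hb, hab⟩ := h1 s hs
      refine ⟨a, b, ha.update hs.le w, hb.update hs.le w, ?_⟩
      rw [Function.update_of_ne (by omega)]
      exact hab
    · subst hs
      refine ⟨p, q, (h2' p hp).update le_rfl w, (h2' q hq).update le_rfl w, ?_⟩
      rw [Function.update_self]
      exact hw
  · intro x hx
    rcases hx with rfl | hx
    · refine Or.inr (Or.inr ⟨r, by omega, ?_⟩)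
      rw [Function.update_self]
    · exact ((h2 x hx).update le_rfl w).mono (by omega)

theorem Re.pad {r r' : ℕ} {S : Set (MvPolynomial ι K)} (h : Re r S) (hr : r ≤ r') : Re r' S := by
  induction r', hr using Nat.le_induction with
  | base => exact h
  | succ n _ ih =>
    have h0 : Bs (C 0 : MvPolynomial ι K) := Or.inl ⟨0, rfl⟩
    exact (ih.step (Or.inr h0) (Or.inr h0) (Or.inl rfl)).sub (Set.subset_insert _ _)

theorem Re.lin {α : Type} {r : ℕ} {S : Set (MvPolynomial ι K)} (h : Re r S) (T : Finset α)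
    (c : α → K) (p : α → MvPolynomial ι K) (hp : ∀ j ∈ T, p j ∈ S ∨ Bs (p j))
    (v : MvPolynomial ι K) (hv : v ∈ S ∨ Bs v) :
    Re (r + 2 * T.card) (insert (v + ∑ j ∈ T, C (c j) * p j) S) := by
  classical
  induction T using Finset.induction_on with
  | empty =>
    obtain ⟨g, h1, h2⟩ := h
    refine ⟨g, h1, ?_⟩
    rintro x (rfl | hx)
    · rw [Finset.sum_empty, add_zero]
      exact hv.elim (h2 v) Av.of_bs
    · exact h2 x hx
  | insert j T hj ih =>
    have h1 := ih fun i hi => hp i (Finset.mem_insert_of_mem hi)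
    have h2 := h1.step (p := C (c j)) (q := p j) (w := C (c j) * p j)
      (Or.inr (Or.inl ⟨c j, rfl⟩))
      ((hp j (Finset.mem_insert_self _ _)).imp (fun h => Set.mem_insert_of_mem _ h) id)
      (Or.inr (Or.inr rfl))
    have h3 := h2.step (p := v + ∑ j ∈ T, C (c j) * p j) (q := C (c j) * p j)
      (w := v + ∑ j ∈ insert j T, C (c j) * p j)
      (Or.inl (Set.mem_insert_of_mem _ (Set.mem_insert _ _)))
      (Or.inl (Set.mem_insert _ _)) (Or.inl (by rw [Finset.sum_insert hj]; ring))
    rw [Finset.card_insert_of_notMem hj]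
    have h4 : r + 2 * (T.card + 1) = r + 2 * T.card + 1 + 1 := by ring
    rw [h4]
    refine h3.sub ?_
    intro x hx
    rcases hx with rfl | hx
    · exact Set.mem_insert _ _
    · exact Set.mem_insert_of_mem _ (Set.mem_insert_of_mem _ (Set.mem_insert_of_mem _ hx))

theorem Re.lf [Fintype ι] {r : ℕ} {S : Set (MvPolynomial ι K)} (h : Re r S) (f : LF K ι)
    (l : ℕ) (g : ℕ → MvPolynomial ι K) (hg : ∀ s < l, g s ∈ S) :
    Re (r + 2 * (Fintype.card ι + l)) (insert (f.val X l g) S) := by
  have h1 := h.lin (Finset.univ : Finset ι) f.x X (fun i _ => Or.inr (Or.inr ⟨i, rfl⟩)) (C f.c)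
    (Or.inr (Or.inl ⟨_, rfl⟩))
  have h2 := h1.lin (Finset.range l) f.r g
    (fun s hs => Or.inl (Set.mem_insert_of_mem _ (hg s (Finset.mem_range.1 hs))))
    (C f.c + ∑ j, C (f.x j) * X j) (Or.inl (Set.mem_insert _ _))
  have h3 : r + 2 * (Fintype.card ι + l) =
      r + 2 * (Finset.univ : Finset ι).card + 2 * (Finset.range l).card := by
    rw [Finset.card_univ, Finset.card_range]; ring
  rw [h3]
  refine h2.sub ?_
  intro x hx
  rcases hx with rfl | hx
  · refine Or.inl ?_
    unfold LF.val
    rw [MvPolynomial.algebraMap_eq]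
  · exact Set.mem_insert_of_mem _ (Set.mem_insert_of_mem _ hx)

theorem tot : S_TOT := by
  intro K ι V _ _ _ M f hf
  classical
  obtain ⟨a, b, o, g, hg, ho⟩ := hf
  set c : ℕ := 4 * (Fintype.card ι + M) + 1 with hc
  have step1 : ∀ r, r ≤ M → Re (r * c) {x | ∃ s < r, x = g s} := by
    intro r
    induction r with
    | zero =>
      intro _
      refine ⟨fun _ => 0, fun s hs => by omega, ?_⟩
      rintro x ⟨s, hs, -⟩
      omega
    | succ r ih =>
      intro hr
      have h0 := ih (by omega)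
      have h1 := h0.lf (a r) r g (fun s hs => ⟨s, hs, rfl⟩)
      have h2 := h1.lf (b r) r g (fun s hs => Set.mem_insert_of_mem _ ⟨s, hs, rfl⟩)
      have h3 := h2.step (p := (a r).val X r g) (q := (b r).val X r g) (w := g r)
        (Or.inl (Set.mem_insert_of_mem _ (Set.mem_insert _ _))) (Or.inl (Set.mem_insert _ _))
        (Or.inr (Or.inr (hg r (by omega))))
      refine (h3.pad ?_).sub ?_
      · have h4 : (r + 1) * c = r * c + c := Nat.succ_mul r c
        have h5 : r ≤ M := by omega
        rw [h4]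
        generalize r * c = z
        omega
      · rintro x ⟨s, hs, rfl⟩
        rcases Nat.lt_succ_iff_lt_or_eq.1 hs with hs | rfl
        · exact Set.mem_insert_of_mem _ (Set.mem_insert_of_mem _
            (Set.mem_insert_of_mem _ ⟨s, hs, rfl⟩))
        · exact Set.mem_insert _ _
  have step2 : ∀ T : Finset V, Re (M * c + T.card * c)
      ({x | ∃ s < M, x = g s} ∪ {x | ∃ v ∈ T, x = f v}) := by
    intro T
    induction T using Finset.induction_on with
    | empty =>
      rw [Finset.card_empty, Nat.zero_mul, Nat.add_zero]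
      refine (step1 M le_rfl).sub ?_
      rintro x (hx | ⟨v, hv, -⟩)
      · exact hx
      · simp at hv
    | insert v T hv ih =>
      have h1 := ih.lf (o v) M g (fun s hs => Or.inl ⟨s, hs, rfl⟩)
      refine (h1.pad ?_).sub ?_
      · have h4 : (T.card + 1) * c = T.card * c + c := Nat.succ_mul _ c
        rw [Finset.card_insert_of_notMem hv, h4]
        generalize T.card * c = z
        generalize M * c = z'
        omega
      · rintro x (hx | ⟨u, hu, rfl⟩)
        · exact Set.mem_insert_of_mem _ (Or.inl hx)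
        · rw [Finset.mem_insert] at hu
          rcases hu with rfl | hu
          · rw [ho u]
            exact Set.mem_insert _ _
          · exact Set.mem_insert_of_mem _ (Or.inr ⟨u, hu, rfl⟩)
  obtain ⟨g', h1, h2⟩ := step2 Finset.univ
  have h3 : (M + Fintype.card V) * (4 * (Fintype.card ι + M) + 1) =
      M * c + (Finset.univ : Finset V).card * c := by
    rw [Finset.card_univ, hc]; ring
  rw [h3]
  exact ⟨g', h1, fun v => h2 (f v) (Or.inr ⟨v, Finset.mem_univ v, rfl⟩)⟩

end Pool.Agent.W337.VG
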